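import Mathlib
import Pool.Agent.Y796.CD.A
import Pool.Agent.Y796.RH.A

set_option autoImplicit false

/-!
# Cohomological and algebraic dimension agree for power-closed subgroups of diagram groups

`Pres A`, `DiagramGroup P w` (closed edge paths at `w` in the Squier complex, up to elementary
homotopies), `cd G` (supremum of the `n` with `Hⁿ(G; M) ≠ 0` for some `ℤG`-module `M`) and `ad G`
(supremum of the `n` such that `ℤⁿ` embeds in `G`) are defined in `Pool/Agent/H540R3`.
-/

namespace Pool.Agent.Results.MP_07d80f_al.PowerClosedSubgroups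

open H540DG Pool.Agent.Y796.CD

/-- Every element of `D` which commutes with a nontrivial element of `K` has a nontrivial power
in `K`. -/
def PowerClosed {D : Type} [Group D] (K : Subgroup D) : Prop :=
  ∀ k ∈ K, k ≠ 1 → ∀ z : D, k * z = z * k → ∃ n : ℕ, n ≠ 0 ∧ z ^ n ∈ K

/-- The malnormal subgroups. -/
def Malnormal {D : Type} [Group D] (K : Subgroup D) : Prop :=
  ∀ g : D, ∀ k ∈ K, k ≠ 1 → g⁻¹ * k * g ∈ K → g ∈ K

theorem cd_le_ad_of {G : Type} [Group G] (hG : ∀ n, AdLE G n → ∀ k, n ≤ k → Van G k) :
    cd G ≤ ad G := by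
  by_cases h : ad G = ⊤
  · rw [h]; exact le_top
  · obtain ⟨n, hn⟩ := ENat.ne_top_iff_exists.1 h
    rw [← hn]
    have hle : AdLE G n := by
      intro m hm
      have : (m : ℕ∞) ≤ ad G := le_iSup₂_of_le m hm le_rfl
      rw [← hn] at this
      exact_mod_cast this
    apply iSup₂_le
    rintro k ⟨M, hM⟩
    by_contra hcon
    have hcon : n < k := by
      by_contra h'
      push Not at h'
      apply hcon
      exact_mod_cast h'
    obtain ⟨k, rfl⟩ : ∃ k', k = k' + 1 := ⟨k - 1, by omega⟩
    have h1 := @van_isZero G _ k (hG n hle k (by omega)) M.V M.hV1 M.hV2 M.ρ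
    have h2 := ModuleCat.subsingleton_of_isZero h1
    exact not_nontrivial_iff_subsingleton.2 h2 hM

theorem pc_factor {A : Type} {P : Pres A} {w : List A} {G : Type} [Group G] (j : G →* Dg P w)
    (hj : Function.Injective j) (hpow : PC j) {B C : Type} [Group B] [Group C]
    (f : G ≃* Monoid.Coprod B C) : PC (j.comp (Pool.Agent.Y796.RH.fb f)) := by
  intro k hk z hz
  have hk1 : Pool.Agent.Y796.RH.fb f k ≠ 1 := fun h =>
    hk (Pool.Agent.Y796.RH.fb_inj f (by rw [h, map_one]))
  obtain ⟨n, hn, y, hy⟩ := hpow _ hk1 z hz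
  have hc : Pool.Agent.Y796.RH.fb f k * y = y * Pool.Agent.Y796.RH.fb f k := by
    apply hj
    rw [map_mul, map_mul, hy]
    exact (Commute.pow_right (show Commute (j (Pool.Agent.Y796.RH.fb f k)) z from hz) n)
  obtain ⟨x, hx⟩ := Pool.Agent.Y796.RH.fb_malnormal f (tf_of_inj hj) hk hc
  exact ⟨n, hn, x, by rw [MonoidHom.comp_apply, hx, hy]⟩

/-- **Main result.** Let `D = D(P, w)` be a diagram group and `G` a subgroup of `D` of finite index,
or a malnormal subgroup, or more generally a subgroup such that every element of `D` commuting with a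
nontrivial element of `G` has a nontrivial power in `G`. Then the cohomological dimension of `G`
equals its algebraic dimension; and the same holds for every free factor `B` of `G`. -/
theorem result {A : Type} (P : Pres A) (w : List A) (G : Subgroup (DiagramGroup P w))
    (hG : G.index ≠ 0 ∨ Malnormal G ∨ PowerClosed G) :
    cd G = ad G ∧
    ∀ (B C : Type) (_ : Group B) (_ : Group C), Nonempty (G ≃* Monoid.Coprod B C) →
      cd B = ad B := by
  have hG' : PowerClosed G := by
    rcases hG with h | h | h
    · intro k _ _ z _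
      obtain ⟨n, hn, -, hn'⟩ := Subgroup.exists_pow_mem_of_index_ne_zero h z
      exact ⟨n, hn.ne', hn'⟩
    · intro k hk hk1 z hz
      refine ⟨1, one_ne_zero, ?_⟩
      rw [pow_one]
      apply h z k hk hk1
      rw [mul_assoc, hz, inv_mul_cancel_left]
      exact hk
    · exact h
  let e := dgEquiv P w
  let j : G →* Dg P w := e.toMonoidHom.comp G.subtype
  have hj : Function.Injective j := e.injective.comp G.subtype_injective
  have hpow : PC j := by
    intro k hk z hz
    obtain ⟨n, hn, hy⟩ := hG' k.1 k.2 (fun h => hk (Subtype.ext h)) (e.symm z) (by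
      apply e.injective
      rw [map_mul, map_mul, e.apply_symm_apply]
      exact hz)
    refine ⟨n, hn, ⟨_, hy⟩, ?_⟩
    change e ((e.symm z) ^ n) = _
    rw [map_pow, e.apply_symm_apply]
  have key : ∀ (B : Type) (_ : Group B) (i : B →* Dg P w), Function.Injective i → PC i →
      cd B = ad B := fun B _ i hi hpc =>
    le_antisymm (cd_le_ad_of fun n hn k hk => van_of_adLE n w B _ i hi hpc hn k hk) (ad_le_cd B)
  refine ⟨key G _ j hj hpow, ?_⟩
  rintro B C iB iC ⟨f⟩
  exact key B _ _ (hj.comp (Pool.Agent.Y796.RH.fb_inj f)) (pc_factor j hj hpow f)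

end Pool.Agent.Results.MP_07d80f_al.PowerClosedSubgroups
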